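import Mathlib
import Pool.Agent.Q29.DigDir
import Pool.Agent.TH647.NR.Zeta
import Pool.Agent.TH456.TM.E
import Pool.Agent.H312R3.M34.Cor

/-!
# `1, ζ(3), π ^ 4`, `1, ζ(3), π ^ 2` and the powers of `π`: the digits of linear combinations

Let `θ_0, …, θ_m` be, in any order, `1, ζ(3), π ^ 4`, or `1, ζ(3), π ^ 2`, or `1, π, …, π ^ m`, and let `t_1, …, t_r` be
arbitrary real numbers, for instance powers of `ζ(3)`, of `ζ(3) / π ^ 3`, or of Euler's constant, or monomials in them and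
`π`. If `ζ(3)`, `ζ(3) / π ^ 3` or Euler's constant is algebraic, then for `t_j` its powers some number
`(a_1 θ_1 + … + a_m θ_m + b_1 t_1 + … + b_r t_r) / θ_0` is rational, and the linear complexity of its digits (the least order
of a linear recurrence which the first `L` digits satisfy) is bounded in every base. We show that at each scale the forms
`(a, b)`, of height up to a power of the scale, whose value has digits of small linear complexity in at least one base, are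
contained in a space of dimension at most `r`, uniformly in the numbers `t_j`: there are `K, δ > 0` such that for all
`Λ ≥ 1`, all `t_1, …, t_r`, all `r + 1` linearly independent forms of height at most `e ^ (δ Λ)` and all bases
`g_0, …, g_r ≤ e ^ (δ Λ)` one of the linear complexities of the first `⌊Λ / log g_k⌋` digits of the `k`-th value in base
`g_k` is at least `K Λ / log g_k`.

The proof uses the measures of linear independence of `1, ζ(3), π ^ 4` (`Pool/Agent/H312R3/M34/`) and of `1, ζ(3), π ^ 2`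
(`Pool/Agent/H103R2/LM/`), a measure of transcendence of `π` (`Pool/Agent/TH456/TM/`), the product inequality for near
relations (`Pool/Agent/TH550/NRZ/Elim.lean`) and the approximations given by a short recurrence, uniformly in the base
(`Pool/Agent/Y928/PL/Mixed.lean`).
-/

set_option autoImplicit false

namespace Pool.Agent.Results.MP_e48a95_nt.DigitsOfCombinations

open Finset Polynomial

/-- the `i`-th digit of `x` after the point in base `g` -/
noncomputable def digit (g : ℕ) (x : ℝ) (i : ℕ) : ℤ := ⌊x * (g : ℝ) ^ i⌋ % (g : ℤ)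

/-- the linear complexity of the first `L` digits of `x` in base `g`: the least `m` such that for some
rational numbers `c_0, …, c_(m-1)` one has `s_(i+m) = c_0 s_i + … + c_(m-1) s_(i+m-1)` for
`1 ≤ i ≤ L - m`, where `s_i` is the `i`-th digit -/
noncomputable def complexity (g : ℕ) (x : ℝ) (L : ℕ) : ℕ :=
  sInf {m | ∃ c : ℕ → ℚ, ∀ i : ℕ, 1 ≤ i → i + m ≤ L →
    (digit g x (i + m) : ℚ) = ∑ j ∈ range m, c j * (digit g x (i + j) : ℚ)}

/-- the numbers `θ_0, …, θ_m` have the property: for each `r` there are `K, δ > 0` such that for all `Λ ≥ 1`, all real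
`t_1, …, t_r`, all `r + 1` linearly independent integer vectors `(a_k, b_k)` of height at most `e ^ (δ Λ)` and all bases
`2 ≤ g_k ≤ e ^ (δ Λ)` there is a `k` such that the linear complexity of the first `⌊Λ / log g_k⌋` digits of the number
`(∑ a_kj θ_j + ∑ b_kj t_j) / θ_0` in base `g_k` is at least `K Λ / log g_k` -/
def DigitLaw {m : ℕ} (θ : Fin (m + 1) → ℝ) : Prop :=
  ∀ r : ℕ, ∃ K δ : ℝ, 0 < K ∧ 0 < δ ∧ ∀ Λ : ℝ, 1 ≤ Λ → ∀ (t : Fin r → ℝ) (a : Fin (r + 1) → Fin m → ℤ)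
    (b : Fin (r + 1) → Fin r → ℤ), LinearIndependent ℤ (fun k => (a k, b k)) →
    (∀ k j, |(a k j : ℝ)| ≤ Real.exp (δ * Λ)) → (∀ k j, |(b k j : ℝ)| ≤ Real.exp (δ * Λ)) →
    ∀ g : Fin (r + 1) → ℕ, (∀ k, 2 ≤ g k) → (∀ k, (g k : ℝ) ≤ Real.exp (δ * Λ)) →
      ∃ k, K * (Λ / Real.log (g k)) ≤
        complexity (g k) ((∑ j, (a k j : ℝ) * θ j.succ + ∑ j, (b k j : ℝ) * t j) / θ 0) ⌊Λ / Real.log (g k)⌋₊

open Pool.Agent.W472.AC in
/-- from a measure of linear independence to the law -/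
theorem law_of_meas {m : ℕ} (θ : Fin (m + 1) → ℝ) (h0 : θ 0 ≠ 0)
    (hM : ∃ κ : ℝ, 0 ≤ κ ∧ ∃ c : ℝ, 0 < c ∧ Meas θ κ c) : DigitLaw θ := by
  obtain ⟨μ, hμ, c, hc, hm⟩ := hM
  intro r
  have h0' : 0 < |θ 0| := abs_pos.2 h0
  have hm' : Meas (Fin.cons 1 (fun j : Fin m => θ j.succ / θ 0) : Fin (m + 1) → ℝ) μ (c / |θ 0|) := by
    intro a ha H hH hb
    have h1 := hm a ha H hH hb
    have e : ∑ j, (a j : ℝ) * (Fin.cons 1 (fun j : Fin m => θ j.succ / θ 0) : Fin (m + 1) → ℝ) j =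
        (∑ j, (a j : ℝ) * θ j) / θ 0 := by
      rw [Fin.sum_univ_succ, Fin.sum_univ_succ, add_div, Finset.sum_div]
      congr 1
      · rw [Fin.cons_zero, mul_one, mul_div_assoc, div_self h0, mul_one]
      · exact Finset.sum_congr rfl fun j _ => by rw [Fin.cons_succ]; ring
    rw [e, abs_div, mul_div_assoc']
    exact div_le_div_of_nonneg_right h1 h0'.le
  obtain ⟨C, hC, h⟩ := Pool.Agent.Q29.DD.prod_digits (fun j : Fin m => θ j.succ / θ 0) μ (c / |θ 0|) hμ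
    (by positivity) hm' r
  have hr0 : (0 : ℝ) ≤ r := Nat.cast_nonneg _
  obtain ⟨D, hD⟩ : ∃ D : ℝ, D = (μ + 1) * (r + 1) := ⟨_, rfl⟩
  have hD0 : 0 ≤ D := by rw [hD]; positivity
  obtain ⟨K, hK⟩ : ∃ K : ℝ, K = max 4 D := ⟨_, rfl⟩
  have hK4 : 4 ≤ K := by rw [hK]; exact le_max_left _ _
  have hKD : D ≤ K := by rw [hK]; exact le_max_right _ _
  obtain ⟨δ, hδ, h'⟩ := Pool.Agent.Q29.DD.scale (n := r + 1) K C D (1 / (2 * K)) hK4 hC hD0 (by positivity)
  refine ⟨1 / (2 * K), δ, by positivity, hδ, fun Λ hΛ t a b hli ha hb g hg hgL => ?_⟩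
  have key := h' Λ hΛ (fun k => ∑ j, (a k j : ℝ) * (θ j.succ / θ 0) + ∑ j, (b k j : ℝ) * (t j / θ 0)) g hg hgL ?_
  · obtain ⟨k, hk⟩ := key
    refine ⟨k, ?_⟩
    have e : (∑ j, (a k j : ℝ) * θ j.succ + ∑ j, (b k j : ℝ) * t j) / θ 0 =
        ∑ j, (a k j : ℝ) * (θ j.succ / θ 0) + ∑ j, (b k j : ℝ) * (t j / θ 0) := by
      rw [add_div, Finset.sum_div, Finset.sum_div]
      congr 1
      · exact Finset.sum_congr rfl fun j _ => by ring
      · exact Finset.sum_congr rfl fun j _ => by ring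
    rw [e]
    have e2 : 1 / K - 1 / (2 * K) = 1 / (2 * K) := by
      field_simp
      norm_num
    rw [e2] at hk
    exact hk
  · intro L x Λ' hΛ' hx
    have h1 := h (fun j => t j / θ 0) a b hli (Real.exp (δ * Λ)) (Real.one_le_exp (by positivity)) ha hb g hg L Λ' hΛ'
    refine h1.trans ?_
    rw [Real.log_exp]
    have h2 : ∑ k, Pool.Agent.Q29.DD.F C (Pool.Agent.Q29.DD.complexity (g k)
        (∑ j, (a k j : ℝ) * (θ j.succ / θ 0) + ∑ j, (b k j : ℝ) * (t j / θ 0)) (L k)) * Real.log (g k) ≤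
        ((r : ℝ) + 1) * x := by
      calc _ ≤ ∑ _k : Fin (r + 1), x := Finset.sum_le_sum fun k _ => hx k
        _ = _ := by
          rw [Finset.sum_const, Finset.card_univ, Fintype.card_fin, nsmul_eq_mul]
          push_cast
          ring
    have hx0 : 0 ≤ x := by
      refine le_trans ?_ (hx 0)
      unfold Pool.Agent.Q29.DD.F
      have : 0 ≤ Real.log (g 0) := Real.log_natCast_nonneg _
      positivity
    have h3 : (μ + 1) * ∑ k, Pool.Agent.Q29.DD.F C (Pool.Agent.Q29.DD.complexity (g k)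
        (∑ j, (a k j : ℝ) * (θ j.succ / θ 0) + ∑ j, (b k j : ℝ) * (t j / θ 0)) (L k)) * Real.log (g k) ≤ K * x := by
      calc _ ≤ (μ + 1) * (((r : ℝ) + 1) * x) := mul_le_mul_of_nonneg_left h2 (by positivity)
        _ = D * x := by rw [hD]; ring
        _ ≤ K * x := mul_le_mul_of_nonneg_right hKD hx0
    have h4 : (μ + 1) * (r + 1) * (δ * Λ) = D * (δ * Λ) := by rw [hD]
    linarith

open Pool.Agent.W472.AC in
/-- all orders -/
theorem perm_meas {m : ℕ} (θ : Fin (m + 1) → ℝ) (σ : Equiv.Perm (Fin (m + 1))) (κ c : ℝ) (h : Meas θ κ c) :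
    Meas (θ ∘ σ) κ c := by
  intro a ha H hH hb
  have h1 := h (fun i => a (σ.symm i)) (fun h0 => ha (by
    funext i
    have := congrFun h0 (σ i)
    simpa using this)) H hH (fun j => hb _)
  refine h1.trans (le_of_eq ?_)
  congr 2
  rw [← Equiv.sum_comp σ]
  exact Finset.sum_congr rfl fun i _ => by simp

open Pool.Agent.W472.AC in
theorem meas_pi (n : ℕ) : ∃ κ : ℝ, 0 ≤ κ ∧ ∃ c : ℝ, 0 < c ∧ Meas (fun i : Fin (n + 1) => Real.pi ^ (i : ℕ)) κ c := by
  obtain ⟨κ, c, hκ, hc, h⟩ := Pool.Agent.TH456.TM.measT_pi n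
  refine ⟨κ, hκ, c, hc, fun a ha H hH hb => ?_⟩
  obtain ⟨P, hP⟩ : ∃ P : ℤ[X], P = ∑ i : Fin (n + 1), C (a i) * X ^ (i : ℕ) := ⟨_, rfl⟩
  have hcoeff : ∀ j : ℕ, P.coeff j = if h : j < n + 1 then a ⟨j, h⟩ else 0 := by
    intro j
    rw [hP, finsetSum_coeff]
    simp only [coeff_C_mul, coeff_X_pow, mul_ite, mul_one, mul_zero]
    split_ifs with h
    · rw [Finset.sum_eq_single (⟨j, h⟩ : Fin (n + 1)) (fun i _ hi => by
        rw [if_neg (fun h2 => hi (Fin.ext h2.symm))]) (fun h2 => absurd (Finset.mem_univ _) h2)]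
      simp
    · exact Finset.sum_eq_zero fun i _ => by
        rw [if_neg (fun h2 => h (by rw [h2]; exact i.2))]
  have hP0 : P ≠ 0 := by
    intro h0
    apply ha
    funext i
    have h1 := hcoeff i
    rw [h0, dif_pos i.2] at h1
    simpa using h1.symm
  have hdeg : P.natDegree ≤ n := by
    rw [natDegree_le_iff_coeff_eq_zero]
    intro j hj
    rw [hcoeff j, dif_neg (by omega)]
  have h1 := h P hP0 hdeg H hH (fun j => by
    rw [hcoeff j]
    split_ifs with h2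
    · exact hb _
    · simpa using by linarith)
  have e : (aeval (Real.pi : ℂ) P : ℂ) = ((∑ i : Fin (n + 1), (a i : ℝ) * Real.pi ^ (i : ℕ) : ℝ) : ℂ) := by
    rw [hP, map_sum]
    push_cast
    refine Finset.sum_congr rfl fun i _ => ?_
    simp
  rw [e, Complex.norm_real, Real.norm_eq_abs] at h1
  exact h1

open Pool.Agent.W472.AC in
theorem meas_pi_two : ∃ κ : ℝ, 0 ≤ κ ∧ ∃ c : ℝ, 0 < c ∧
    Meas (![1, ∑' n : ℕ, 1 / ((n : ℝ) + 1) ^ 3, Real.pi ^ 2] : Fin (2 + 1) → ℝ) κ c := by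
  obtain ⟨κ, hκ, c, hc, h⟩ := Pool.Agent.TH647.NR.meas_pi_zeta
  refine ⟨κ, hκ.le, c, hc, ?_⟩
  have h1 := perm_meas _ (Equiv.swap 1 2) κ c h
  have e : (![1, Real.pi ^ 2, ∑' n : ℕ, 1 / ((n : ℝ) + 1) ^ 3] : Fin (2 + 1) → ℝ) ∘ (Equiv.swap 1 2) =
      (![1, ∑' n : ℕ, 1 / ((n : ℝ) + 1) ^ 3, Real.pi ^ 2] : Fin (2 + 1) → ℝ) := by
    funext i
    fin_cases i <;> rfl
  rw [e] at h1
  exact h1

open Pool.Agent.W472.AC in
theorem meas_pi_four : ∃ κ : ℝ, 0 ≤ κ ∧ ∃ c : ℝ, 0 < c ∧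
    Meas (![1, ∑' n : ℕ, 1 / ((n : ℝ) + 1) ^ 3, Real.pi ^ 4] : Fin (2 + 1) → ℝ) κ c := by
  obtain ⟨c, hc, κ, h⟩ := Pool.Agent.ZF.Mea.pi_all
  refine ⟨κ, Nat.cast_nonneg _, c, hc, fun a ha H hH hb => ?_⟩
  have h1 := h (a 0) (a 1) (a 2) (fun h0 => ha (by
    funext i
    fin_cases i
    · exact h0.1
    · exact h0.2.1
    · exact h0.2.2)) H hH (hb 1) (hb 2)
  rw [Fin.sum_univ_three]
  have e3 : Pool.Agent.H337R2.zr 3 = ∑' n : ℕ, 1 / ((n : ℝ) + 1) ^ 3 := rfl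
  have e : (a 0 : ℝ) * (![1, ∑' n : ℕ, 1 / ((n : ℝ) + 1) ^ 3, Real.pi ^ 4] : Fin (2 + 1) → ℝ) 0 +
      (a 1 : ℝ) * (![1, ∑' n : ℕ, 1 / ((n : ℝ) + 1) ^ 3, Real.pi ^ 4] : Fin (2 + 1) → ℝ) 1 +
      (a 2 : ℝ) * (![1, ∑' n : ℕ, 1 / ((n : ℝ) + 1) ^ 3, Real.pi ^ 4] : Fin (2 + 1) → ℝ) 2 =
      (a 0 : ℝ) + a 1 * Pool.Agent.H337R2.zr 3 + a 2 * Real.pi ^ 4 := by
    rw [e3]
    simp
  rw [e, Real.rpow_natCast]
  rw [div_le_iff₀ (by positivity)] at h1
  linarith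

theorem zeta_pos : (0 : ℝ) < ∑' n : ℕ, 1 / ((n : ℝ) + 1) ^ 3 := by
  have h1 : Summable fun n : ℕ => 1 / ((n : ℝ) + 1) ^ 3 := by
    have := (summable_nat_add_iff 1).2 (Real.summable_one_div_nat_pow.2 (by norm_num : 1 < 3))
    simpa using this
  exact h1.tsum_pos (fun n => by positivity) 0 (by norm_num)

/-- **Theorem.** The numbers `1, ζ(3), π ^ 4`, the numbers `1, ζ(3), π ^ 2` and, for every `n`, the numbers
`1, π, …, π ^ n` satisfy `DigitLaw` in every order. -/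
theorem result :
    (∀ σ : Equiv.Perm (Fin (2 + 1)),
      DigitLaw ((![1, ∑' n : ℕ, 1 / ((n : ℝ) + 1) ^ 3, Real.pi ^ 4] : Fin (2 + 1) → ℝ) ∘ σ)) ∧
    (∀ σ : Equiv.Perm (Fin (2 + 1)),
      DigitLaw ((![1, ∑' n : ℕ, 1 / ((n : ℝ) + 1) ^ 3, Real.pi ^ 2] : Fin (2 + 1) → ℝ) ∘ σ)) ∧
    ∀ (n : ℕ) (σ : Equiv.Perm (Fin (n + 1))), DigitLaw ((fun i : Fin (n + 1) => Real.pi ^ (i : ℕ)) ∘ σ) := by
  have hz := zeta_pos
  refine ⟨fun σ => ?_, fun σ => ?_, fun n σ => ?_⟩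
  · obtain ⟨κ, hκ, c, hc, h⟩ := meas_pi_four
    refine law_of_meas _ ?_ ⟨κ, hκ, c, hc, perm_meas _ σ κ c h⟩
    have : ∀ i : Fin (2 + 1), (![1, ∑' n : ℕ, 1 / ((n : ℝ) + 1) ^ 3, Real.pi ^ 4] : Fin (2 + 1) → ℝ) i ≠ 0 := by
      intro i
      fin_cases i
      · exact one_ne_zero
      · exact hz.ne'
      · exact pow_ne_zero 4 Real.pi_ne_zero
    exact this _
  · obtain ⟨κ, hκ, c, hc, h⟩ := meas_pi_two
    refine law_of_meas _ ?_ ⟨κ, hκ, c, hc, perm_meas _ σ κ c h⟩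
    have : ∀ i : Fin (2 + 1), (![1, ∑' n : ℕ, 1 / ((n : ℝ) + 1) ^ 3, Real.pi ^ 2] : Fin (2 + 1) → ℝ) i ≠ 0 := by
      intro i
      fin_cases i
      · exact one_ne_zero
      · exact hz.ne'
      · exact pow_ne_zero 2 Real.pi_ne_zero
    exact this _
  · obtain ⟨κ, hκ, c, hc, h⟩ := meas_pi n
    exact law_of_meas _ (pow_ne_zero _ Real.pi_ne_zero) ⟨κ, hκ, c, hc, perm_meas _ σ κ c h⟩

end Pool.Agent.Results.MP_e48a95_nt.DigitsOfCombinations
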