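import Mathlib
import Pool.Agent.Q29.GoodMain

/-!
# Good scales for all polynomials in `π` and an arbitrary real number

Let `z = π`, and let `t` be an arbitrary real number, for instance `ζ(3) / π ^ 3`, `ζ(3)` or Euler's constant. For
`t = ζ(3) / π ^ 3` the numbers `ζ(3)` and `ζ(3) / π ^ 3` are the values at `(z, t)` of the polynomials `x ^ 3 y` and `y`.

If `1, P_1(z, t), …, P_s(z, t)` are linearly dependent over the rational numbers, the multiples of the vector
`(P_1(z, t), …, P_s(z, t))` are not uniformly distributed modulo one; if they are independent, the multiples are uniformly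
distributed by the theorem of Kronecker and Weyl, but nothing is known on the speed. We prove:

(2) For all `D`, `s`, `K`, `A` there is `κ > 0` such that for each `t` there are infinitely many scales `N` at which there
are only the true relations, for all polynomials of degree at most `D` in each variable and height at most
`N ^ κ` at once: the values which are not zero are at least `1 / N` in absolute value, and for all `P_1, …, P_s` such that
`1, P_1(z, t), …, P_s(z, t)` are linearly independent over the rational numbers, the multiples of the vector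
`(P_1(z, t), …, P_s(z, t))` by the integers up to `M`, by their `k`-th powers, `k ≤ K` (even with real polynomials of degree less
than `k` added), and by the primes up to `M` in each residue class modulo `d ≤ M ^ κ` are uniformly distributed modulo
one in the cubes of side `1 / q`, `q ≤ M ^ κ`, with an error `M ^ (1 - κ)`, for all `M` from `N` to `N ^ A`. If `z` and `t` satisfy
an algebraic relation of degree at most `D` this is the case for all large `N`.

(1) At each scale `N ≥ N₀` (uniformly for `|t| ≤ T`) there is at most one exceptional curve: an irreducible polynomial `Q` in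
two variables of positive degree in `y` such that the same is true if the true relations are replaced by the relations
modulo `Q`.

The proof: a small value `P(z, t)` gives a small value of an irreducible factor of `P`, of comparable height by
Kronecker's substitution and Mahler's measure (`Pool/Agent/Q29/FacHt.lean`); two different irreducible polynomials are not
both small (`Pool/Agent/TH456/TM/Near.lean`, by a measure of transcendence of `π`); if there were a small
irreducible polynomial with a value different from zero at all large scales, all of them would be equal, and their value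
would be zero. The distribution follows by an inverse theorem for the sums of Weyl and a form of the estimate of
Vinogradov for sums over primes from the starting files (`H373R2/NB`, `W110/HV`).
-/

set_option autoImplicit false

namespace Pool.Agent.Results.MP_e48a95_nt.GoodScales

open Finset Polynomial

/-- the value `P(z, t)` of a polynomial in two variables; the inner variable `x` is `z`, the outer variable `y` is `t` -/
noncomputable def val (z t : ℝ) (P : ℤ[X][X]) : ℝ := eval₂ (aeval z : ℤ[X] →ₐ[ℤ] ℝ).toRingHom t P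

/-- the largest absolute value of a coefficient of a polynomial in two variables -/
noncomputable def height (P : ℤ[X][X]) : ℕ :=
  P.support.sup fun j => (P.coeff j).support.sup fun i => ((P.coeff j).coeff i).natAbs

/-- the integer polynomials in two variables of degree at most `D` in each variable and height at most `H` -/
def Poly (D : ℕ) (H : ℝ) : Set ℤ[X][X] :=
  {P | P.natDegree ≤ D ∧ (∀ j, (P.coeff j).natDegree ≤ D) ∧ (height P : ℝ) ≤ H}

/-- the irreducible integer polynomials in two variables, of degree at most `D` in each variable, with a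
positive leading coefficient -/
def Irr (D : ℕ) : Set ℤ[X][X] :=
  {P | Irreducible P ∧ P.natDegree ≤ D ∧ (∀ j, (P.coeff j).natDegree ≤ D) ∧
    0 < P.leadingCoeff.leadingCoeff}

/-- The points `y n ∈ ℝ ^ s`, `n ∈ S`, are uniformly distributed modulo one with error `E` in the cubes of side `1 / q`,
`q ≤ Q`. -/
def Equi {s : ℕ} (S : Finset ℕ) (y : ℕ → Fin s → ℝ) (Q E : ℝ) : Prop :=
  ∀ q : ℕ, 1 ≤ q → (q : ℝ) ≤ Q → ∀ ρ : Fin s → ℤ, (∀ j, 0 ≤ ρ j ∧ ρ j < q) →
    |((S.filter fun n => ∀ j, (ρ j : ℝ) / q ≤ Int.fract (y n j) ∧ Int.fract (y n j) < (ρ j + 1) / q).card : ℝ) -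
      S.card / (q : ℝ) ^ s| ≤ E

/-- The multiples of the vector `x` are uniformly distributed modulo one at the scale `M`, with a power saving, along all
polynomials of degree `k ≤ K` (the points `x n ^ k + R(n)`, `0 ≤ n < M`, `R` a vector of real polynomials of degree less
than `k`), and along the primes in all residue classes modulo `d ≤ M ^ κ` (the points `x p + β`, `p ≤ M` prime,
`p ≡ r (mod d)`). -/
def Joint (κ : ℝ) (K M : ℕ) {s : ℕ} (x : Fin s → ℝ) : Prop :=
  (∀ k : ℕ, 1 ≤ k → k ≤ K → ∀ R : Fin s → ℝ[X], (∀ j, (R j).degree < k) →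
    Equi (range M) (fun n j => x j * (n : ℝ) ^ k + (R j).eval (n : ℝ)) ((M : ℝ) ^ κ) ((M : ℝ) ^ (1 - κ))) ∧
  (∀ d r : ℕ, 1 ≤ d → (d : ℝ) ≤ (M : ℝ) ^ κ → ∀ β : Fin s → ℝ,
    Equi ((range (M + 1)).filter fun p => p.Prime ∧ p ≡ r [MOD d]) (fun p j => x j * p + β j) ((M : ℝ) ^ κ)
      ((M : ℝ) ^ (1 - κ)))

/-- **Good scales**, see the text at the beginning of the file. -/
theorem result (D s K : ℕ) (A : ℝ) (hD : 1 ≤ D) (hs : 1 ≤ s) (hA : 1 ≤ A) : ∃ κ : ℝ, 0 < κ ∧
      (∀ T : ℝ, ∃ N₀ : ℕ, ∀ N : ℕ, N₀ ≤ N → ∀ t : ℝ, |t| ≤ T → ∃ Q ∈ Irr D, 0 < Q.natDegree ∧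
        (∀ P ∈ Poly D ((N : ℝ) ^ κ), ¬ Q ∣ P → 1 / (N : ℝ) ≤ |val Real.pi t P|) ∧
        (∀ P : Fin s → ℤ[X][X], (∀ i, P i ∈ Poly D ((N : ℝ) ^ κ)) →
          (∀ l : Fin s → ℤ, l ≠ 0 → ∀ a : ℤ, ¬ Q ∣ (∑ i, l i • P i) - C (C a)) →
          ∀ M : ℕ, N ≤ M → (M : ℝ) ≤ (N : ℝ) ^ A → Joint κ K M (fun i => val Real.pi t (P i)))) ∧
      ∀ t : ℝ, ∃ G : Set ℕ,
        (∀ N ∈ G,
          (∀ P ∈ Poly D ((N : ℝ) ^ κ), val Real.pi t P ≠ 0 → 1 / (N : ℝ) ≤ |val Real.pi t P|) ∧
          (∀ P : Fin s → ℤ[X][X], (∀ i, P i ∈ Poly D ((N : ℝ) ^ κ)) →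
            (∀ l : Fin s → ℤ, l ≠ 0 → ∀ a : ℤ, ∑ i, (l i : ℝ) * val Real.pi t (P i) ≠ a) →
            ∀ M : ℕ, N ≤ M → (M : ℝ) ≤ (N : ℝ) ^ A → Joint κ K M (fun i => val Real.pi t (P i)))) ∧
        G.Infinite ∧
        ((∃ Q ∈ Irr D, val Real.pi t Q = 0) → ∃ N₁ : ℕ, ∀ N : ℕ, N₁ ≤ N → N ∈ G) := by
  obtain ⟨κ, hκ, h1, h2⟩ := Pool.Agent.Q29.Eqd.good_main _ Pool.Agent.TH456.TM.measT_pi D hD s hs K A hA
  refine ⟨κ, hκ, ?_, ?_⟩
  · intro T
    obtain ⟨N₀, hN₀⟩ := h1 T
    refine ⟨N₀, fun N hN t ht => ?_⟩
    obtain ⟨Q, hQ, hQ0, h3, h4⟩ := hN₀ N hN t ht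
    exact ⟨Q, hQ, hQ0, fun P hP => h3 P hP.1 hP.2.1 hP.2.2,
      fun P hP => h4 P (fun i => (hP i).1) (fun i => (hP i).2.1) (fun i => (hP i).2.2)⟩
  · intro t
    obtain ⟨G, h3, h4, h5⟩ := h2 t
    refine ⟨G, fun N hN => ⟨fun P hP => (h3 N hN).1 P hP.1 hP.2.1 hP.2.2,
      fun P hP => (h3 N hN).2 P (fun i => (hP i).1) (fun i => (hP i).2.1) (fun i => (hP i).2.2)⟩, ?_, h5⟩
    rw [Set.infinite_iff_exists_gt]
    intro n
    obtain ⟨N, hN, hn⟩ := h4 (n + 1)
    exact ⟨N, hN, by omega⟩

end Pool.Agent.Results.MP_e48a95_nt.GoodScales
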