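import Mathlib
import Pool.Agent.Q29.EqSub
import Pool.Agent.TH647.NR.Zeta
import Pool.Agent.TH456.TM.E
import Pool.Agent.H312R3.M34.Cor

/-!
# `1, ζ(3), π ^ 4`, `1, ζ(3), π ^ 2` and the powers of `π`: joint distribution of the multiples of linear combinations

Let `θ_0, …, θ_m` be, in any order, `1, ζ(3), π ^ 4`, or `1, ζ(3), π ^ 2`, or `1, π, …, π ^ m`, and let `t_1, …, t_r` be
arbitrary real numbers, for instance powers of `ζ(3)`, of `ζ(3) / π ^ 3`, or of Euler's constant, or monomials in them and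
`π`. The integer forms `(a, b)` with a rational value `x = (a_1 θ_1 + … + a_m θ_m + b_1 t_1 + … + b_r t_r) / θ_0` lie in a
subspace `W₀` of `ℚ ^ m × ℚ ^ r` of dimension at most `r`. We prove a quantitative form at each scale, with a power saving
and uniformly in the numbers `t_j`: for all `r`, `s`, `K` and `A ≥ 1` there are `κ > 0` and `N₀` such that for all `N ≥ N₀`
and all real `t_1, …, t_r` there is a subspace `W` of `ℚ ^ m × ℚ ^ r` of dimension at most `r` such that for all integer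
forms `h_1, …, h_s` of height at most `N ^ κ` without a nonzero integer combination in `W` and for all `M` from `N` to
`N ^ A`, the multiples of the vector of the values of the `h_i` by the integers up to `M`, by their `k`-th powers for `k ≤ K`
(even with real polynomials of degree less than `k` added), and by the primes up to `M` in each residue class modulo
`d ≤ M ^ κ` are uniformly distributed in the cubes of side `1 / q`, `q ≤ M ^ κ`, with an error `M ^ (1 - κ)`.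

If `ζ(3)` is a root of an integer polynomial of degree `D`, this polynomial is an exceptional form for
`t_j = ζ(3) ^ (j + 1)`, `j < D`, at all large scales; if `ζ(3) / π ^ 3` or Euler's constant is algebraic, the same holds with
their powers as the `t_j`.

The proof uses the measures of linear independence of `1, ζ(3), π ^ 4` (`Pool/Agent/H312R3/M34/`) and of `1, ζ(3), π ^ 2`
(`Pool/Agent/H103R2/LM/`), a measure of transcendence of `π` (`Pool/Agent/TH456/TM/`), elimination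
(`Pool/Agent/TH647/NR/`), an inverse theorem for the sums of Weyl and a form of the estimate of Vinogradov for the sums over
primes with a power saving from the starting files (`H373R2/NB`, `W110/HV`).
-/

set_option autoImplicit false

namespace Pool.Agent.Results.MP_e48a95_nt.JointDistribution

open Finset Polynomial

/-- The points `y n ∈ ℝ ^ s`, `n ∈ S`, are uniformly distributed modulo one with error `E` in the cubes of side `1 / q`,
`q ≤ Q`. -/
def Equi {s : ℕ} (S : Finset ℕ) (y : ℕ → Fin s → ℝ) (Q E : ℝ) : Prop :=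
  ∀ q : ℕ, 1 ≤ q → (q : ℝ) ≤ Q → ∀ ρ : Fin s → ℤ, (∀ j, 0 ≤ ρ j ∧ ρ j < q) →
    |((S.filter fun n => ∀ j, (ρ j : ℝ) / q ≤ Int.fract (y n j) ∧ Int.fract (y n j) < (ρ j + 1) / q).card : ℝ) -
      S.card / (q : ℝ) ^ s| ≤ E

/-- The multiples of the vector `x` are uniformly distributed modulo one at the scale `M`, with a power saving, along all
polynomials of degree `k ≤ K` (the points `x n ^ k + R(n)`, `0 ≤ n < M`, `R` a vector of real polynomials of degree less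
than `k`), and along the primes in all residue classes modulo `d ≤ M ^ κ` (the points `x p + β`, `p ≤ M` prime,
`p ≡ r (mod d)`). -/
def Joint (κ : ℝ) (K M : ℕ) {s : ℕ} (x : Fin s → ℝ) : Prop :=
  (∀ k : ℕ, 1 ≤ k → k ≤ K → ∀ R : Fin s → ℝ[X], (∀ j, (R j).degree < k) →
    Equi (range M) (fun n j => x j * (n : ℝ) ^ k + (R j).eval (n : ℝ)) ((M : ℝ) ^ κ) ((M : ℝ) ^ (1 - κ))) ∧
  (∀ d r : ℕ, 1 ≤ d → (d : ℝ) ≤ (M : ℝ) ^ κ → ∀ β : Fin s → ℝ,
    Equi ((range (M + 1)).filter fun p => p.Prime ∧ p ≡ r [MOD d]) (fun p j => x j * p + β j) ((M : ℝ) ^ κ)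
      ((M : ℝ) ^ (1 - κ)))

/-- The numbers `θ_0, …, θ_m` have the property: for all `r`, `s ≥ 1`, `K` and `A ≥ 1` there are `κ > 0` and `N₀` such that
for all `N ≥ N₀` and all real `t_1, …, t_r` there is a subspace `W` of `ℚ ^ m × ℚ ^ r` of dimension at most `r` with: if
`h_i = (a_i, b_i)`, `i ≤ s`, are integer vectors of height at most `N ^ κ` and no nonzero integer combination of them lies
in `W`, then the vector of the numbers `(∑ a_ij θ_j + ∑ b_ij t_j) / θ_0` satisfies `Joint κ K M` for all `N ≤ M ≤ N ^ A`. -/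
def Law {m : ℕ} (θ : Fin (m + 1) → ℝ) : Prop :=
  ∀ (r s K : ℕ) (A : ℝ), 1 ≤ s → 1 ≤ A →
    ∃ κ : ℝ, 0 < κ ∧ ∃ N₀ : ℕ, ∀ N : ℕ, N₀ ≤ N → ∀ t : Fin r → ℝ,
      ∃ W : Submodule ℚ ((Fin m → ℚ) × (Fin r → ℚ)), Module.finrank ℚ W ≤ r ∧
        ∀ (a : Fin s → Fin m → ℤ) (b : Fin s → Fin r → ℤ),
          (∀ i j, |(a i j : ℝ)| ≤ (N : ℝ) ^ κ) → (∀ i j, |(b i j : ℝ)| ≤ (N : ℝ) ^ κ) →
          (∀ l : Fin s → ℤ, l ≠ 0 →
            ((fun j => ((∑ i, l i * a i j : ℤ) : ℚ), fun j => ((∑ i, l i * b i j : ℤ) : ℚ)) :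
              (Fin m → ℚ) × (Fin r → ℚ)) ∉ W) →
          ∀ M : ℕ, N ≤ M → (M : ℝ) ≤ (N : ℝ) ^ A →
            Joint κ K M (fun i => (∑ j, (a i j : ℝ) * θ j.succ + ∑ j, (b i j : ℝ) * t j) / θ 0)

theorem joint_iff (κ : ℝ) (K M : ℕ) {s : ℕ} (x : Fin s → ℝ) : Joint κ K M x ↔ Pool.Agent.Q29.Eqd.Joint κ K M x :=
  Iff.rfl

open Pool.Agent.W472.AC in
/-- from a measure of linear independence to the law -/
theorem law_of_meas {m : ℕ} (θ : Fin (m + 1) → ℝ) (h0 : θ 0 ≠ 0)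
    (hM : ∃ κ : ℝ, 0 ≤ κ ∧ ∃ c : ℝ, 0 < c ∧ Meas θ κ c) : Law θ := by
  obtain ⟨μ, hμ, c, hc, hm⟩ := hM
  intro r s K A hs hA
  obtain ⟨κ, hκ, h⟩ := Pool.Agent.Q29.Eqd.joint_struct ((r : ℝ) + (r + 1) * μ) A (by positivity) hA s hs K
  have h0' : 0 < |θ 0| := abs_pos.2 h0
  have hm' : Meas (fun i => θ i / θ 0) μ (c / |θ 0|) := by
    intro a ha H hH hb
    have h1 := hm a ha H hH hb
    have e : ∑ j, (a j : ℝ) * (θ j / θ 0) = (∑ j, (a j : ℝ) * θ j) / θ 0 := by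
      rw [Finset.sum_div]
      exact Finset.sum_congr rfl fun j _ => by ring
    rw [e, abs_div, mul_div_assoc']
    exact div_le_div_of_nonneg_right h1 h0'.le
  obtain ⟨c', hc', h'⟩ := Pool.Agent.TH647.NR.rank_bound _ μ (c / |θ 0|) (by positivity) hm' r
  obtain ⟨N₀, hN₀⟩ := h (r := r) (fun j : Fin m => θ j.succ / θ 0) c' hc' (by
    intro t X hX v hv hvX
    obtain ⟨k, hk⟩ := h' t X hX v hv hvX
    refine ⟨k, ?_⟩
    have e : Pool.Agent.TH647.NR.linr (fun i => θ i / θ 0) t (v k) =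
        Pool.Agent.Q29.Eqd.lval (fun j : Fin m => θ j.succ / θ 0) t (v k) := by
      unfold Pool.Agent.TH647.NR.linr Pool.Agent.Q29.Eqd.lval
      rw [Fin.sum_univ_succ]
      simp only [div_self h0, mul_one]
    rw [← e]
    exact hk)
  refine ⟨κ, hκ, N₀, fun N hN t => ?_⟩
  obtain ⟨W, hW, hW2⟩ := hN₀ N hN (fun j => t j / θ 0)
  refine ⟨W, hW, fun a b ha hb hl M hNM hMA => ?_⟩
  rw [joint_iff]
  have h3 := hW2 a b ha hb (fun l hl0 => by
    have := hl l hl0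
    unfold Pool.Agent.Q29.Eqd.castv
    exact this) M hNM hMA
  have e : (fun i => (∑ j, (a i j : ℝ) * θ j.succ + ∑ j, (b i j : ℝ) * t j) / θ 0) = fun i =>
      ∑ j, (a i j : ℝ) * (θ j.succ / θ 0) + ∑ j, (b i j : ℝ) * (t j / θ 0) := by
    funext i
    rw [add_div, Finset.sum_div, Finset.sum_div]
    congr 1
    · exact Finset.sum_congr rfl fun j _ => by ring
    · exact Finset.sum_congr rfl fun j _ => by ring
  rw [e]
  exact h3

open Pool.Agent.W472.AC in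
/-- all orders -/
theorem perm_meas {m : ℕ} (θ : Fin (m + 1) → ℝ) (σ : Equiv.Perm (Fin (m + 1))) (κ c : ℝ) (h : Meas θ κ c) :
    Meas (θ ∘ σ) κ c := by
  intro a ha H hH hb
  have h1 := h (fun i => a (σ.symm i)) (fun h0 => ha (by
    funext i
    have := congrFun h0 (σ i)
    simpa using this)) H hH (fun j => hb _)
  refine h1.trans (le_of_eq ?_)
  congr 2
  rw [← Equiv.sum_comp σ]
  exact Finset.sum_congr rfl fun i _ => by simp

open Pool.Agent.W472.AC in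
theorem meas_pi (n : ℕ) : ∃ κ : ℝ, 0 ≤ κ ∧ ∃ c : ℝ, 0 < c ∧ Meas (fun i : Fin (n + 1) => Real.pi ^ (i : ℕ)) κ c := by
  obtain ⟨κ, c, hκ, hc, h⟩ := Pool.Agent.TH456.TM.measT_pi n
  refine ⟨κ, hκ, c, hc, fun a ha H hH hb => ?_⟩
  obtain ⟨P, hP⟩ : ∃ P : ℤ[X], P = ∑ i : Fin (n + 1), C (a i) * X ^ (i : ℕ) := ⟨_, rfl⟩
  have hcoeff : ∀ j : ℕ, P.coeff j = if h : j < n + 1 then a ⟨j, h⟩ else 0 := by
    intro j
    rw [hP, finsetSum_coeff]
    simp only [coeff_C_mul, coeff_X_pow, mul_ite, mul_one, mul_zero]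
    split_ifs with h
    · rw [Finset.sum_eq_single (⟨j, h⟩ : Fin (n + 1)) (fun i _ hi => by
        rw [if_neg (fun h2 => hi (Fin.ext h2.symm))]) (fun h2 => absurd (Finset.mem_univ _) h2)]
      simp
    · exact Finset.sum_eq_zero fun i _ => by
        rw [if_neg (fun h2 => h (by rw [h2]; exact i.2))]
  have hP0 : P ≠ 0 := by
    intro h0
    apply ha
    funext i
    have h1 := hcoeff i
    rw [h0, dif_pos i.2] at h1
    simpa using h1.symm
  have hdeg : P.natDegree ≤ n := by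
    rw [natDegree_le_iff_coeff_eq_zero]
    intro j hj
    rw [hcoeff j, dif_neg (by omega)]
  have h1 := h P hP0 hdeg H hH (fun j => by
    rw [hcoeff j]
    split_ifs with h2
    · exact hb _
    · simpa using by linarith)
  have e : (aeval (Real.pi : ℂ) P : ℂ) = ((∑ i : Fin (n + 1), (a i : ℝ) * Real.pi ^ (i : ℕ) : ℝ) : ℂ) := by
    rw [hP, map_sum]
    push_cast
    refine Finset.sum_congr rfl fun i _ => ?_
    simp
  rw [e, Complex.norm_real, Real.norm_eq_abs] at h1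
  exact h1

open Pool.Agent.W472.AC in
theorem meas_pi_two : ∃ κ : ℝ, 0 ≤ κ ∧ ∃ c : ℝ, 0 < c ∧
    Meas (![1, ∑' n : ℕ, 1 / ((n : ℝ) + 1) ^ 3, Real.pi ^ 2] : Fin (2 + 1) → ℝ) κ c := by
  obtain ⟨κ, hκ, c, hc, h⟩ := Pool.Agent.TH647.NR.meas_pi_zeta
  refine ⟨κ, hκ.le, c, hc, ?_⟩
  have h1 := perm_meas _ (Equiv.swap 1 2) κ c h
  have e : (![1, Real.pi ^ 2, ∑' n : ℕ, 1 / ((n : ℝ) + 1) ^ 3] : Fin (2 + 1) → ℝ) ∘ (Equiv.swap 1 2) =
      (![1, ∑' n : ℕ, 1 / ((n : ℝ) + 1) ^ 3, Real.pi ^ 2] : Fin (2 + 1) → ℝ) := by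
    funext i
    fin_cases i <;> rfl
  rw [e] at h1
  exact h1

open Pool.Agent.W472.AC in
theorem meas_pi_four : ∃ κ : ℝ, 0 ≤ κ ∧ ∃ c : ℝ, 0 < c ∧
    Meas (![1, ∑' n : ℕ, 1 / ((n : ℝ) + 1) ^ 3, Real.pi ^ 4] : Fin (2 + 1) → ℝ) κ c := by
  obtain ⟨c, hc, κ, h⟩ := Pool.Agent.ZF.Mea.pi_all
  refine ⟨κ, Nat.cast_nonneg _, c, hc, fun a ha H hH hb => ?_⟩
  have h1 := h (a 0) (a 1) (a 2) (fun h0 => ha (by
    funext i
    fin_cases i
    · exact h0.1
    · exact h0.2.1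
    · exact h0.2.2)) H hH (hb 1) (hb 2)
  rw [Fin.sum_univ_three]
  have e3 : Pool.Agent.H337R2.zr 3 = ∑' n : ℕ, 1 / ((n : ℝ) + 1) ^ 3 := rfl
  have e : (a 0 : ℝ) * (![1, ∑' n : ℕ, 1 / ((n : ℝ) + 1) ^ 3, Real.pi ^ 4] : Fin (2 + 1) → ℝ) 0 +
      (a 1 : ℝ) * (![1, ∑' n : ℕ, 1 / ((n : ℝ) + 1) ^ 3, Real.pi ^ 4] : Fin (2 + 1) → ℝ) 1 +
      (a 2 : ℝ) * (![1, ∑' n : ℕ, 1 / ((n : ℝ) + 1) ^ 3, Real.pi ^ 4] : Fin (2 + 1) → ℝ) 2 =
      (a 0 : ℝ) + a 1 * Pool.Agent.H337R2.zr 3 + a 2 * Real.pi ^ 4 := by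
    rw [e3]
    simp
  rw [e, Real.rpow_natCast]
  rw [div_le_iff₀ (by positivity)] at h1
  linarith

theorem zeta_pos : (0 : ℝ) < ∑' n : ℕ, 1 / ((n : ℝ) + 1) ^ 3 := by
  have h1 : Summable fun n : ℕ => 1 / ((n : ℝ) + 1) ^ 3 := by
    have := (summable_nat_add_iff 1).2 (Real.summable_one_div_nat_pow.2 (by norm_num : 1 < 3))
    simpa using this
  exact h1.tsum_pos (fun n => by positivity) 0 (by norm_num)

/-- **Theorem.** The numbers `1, ζ(3), π ^ 4`, the numbers `1, ζ(3), π ^ 2` and, for every `n`, the numbers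
`1, π, …, π ^ n` satisfy `Law` in every order. -/
theorem result :
    (∀ σ : Equiv.Perm (Fin (2 + 1)),
      Law ((![1, ∑' n : ℕ, 1 / ((n : ℝ) + 1) ^ 3, Real.pi ^ 4] : Fin (2 + 1) → ℝ) ∘ σ)) ∧
    (∀ σ : Equiv.Perm (Fin (2 + 1)),
      Law ((![1, ∑' n : ℕ, 1 / ((n : ℝ) + 1) ^ 3, Real.pi ^ 2] : Fin (2 + 1) → ℝ) ∘ σ)) ∧
    ∀ (n : ℕ) (σ : Equiv.Perm (Fin (n + 1))), Law ((fun i : Fin (n + 1) => Real.pi ^ (i : ℕ)) ∘ σ) := by
  have hz := zeta_pos
  refine ⟨fun σ => ?_, fun σ => ?_, fun n σ => ?_⟩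
  · obtain ⟨κ, hκ, c, hc, h⟩ := meas_pi_four
    refine law_of_meas _ ?_ ⟨κ, hκ, c, hc, perm_meas _ σ κ c h⟩
    have : ∀ i : Fin (2 + 1), (![1, ∑' n : ℕ, 1 / ((n : ℝ) + 1) ^ 3, Real.pi ^ 4] : Fin (2 + 1) → ℝ) i ≠ 0 := by
      intro i
      fin_cases i
      · exact one_ne_zero
      · exact hz.ne'
      · exact pow_ne_zero 4 Real.pi_ne_zero
    exact this _
  · obtain ⟨κ, hκ, c, hc, h⟩ := meas_pi_two
    refine law_of_meas _ ?_ ⟨κ, hκ, c, hc, perm_meas _ σ κ c h⟩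
    have : ∀ i : Fin (2 + 1), (![1, ∑' n : ℕ, 1 / ((n : ℝ) + 1) ^ 3, Real.pi ^ 2] : Fin (2 + 1) → ℝ) i ≠ 0 := by
      intro i
      fin_cases i
      · exact one_ne_zero
      · exact hz.ne'
      · exact pow_ne_zero 2 Real.pi_ne_zero
    exact this _
  · obtain ⟨κ, hκ, c, hc, h⟩ := meas_pi n
    exact law_of_meas _ (pow_ne_zero _ Real.pi_ne_zero) ⟨κ, hκ, c, hc, perm_meas _ σ κ c h⟩

end Pool.Agent.Results.MP_e48a95_nt.JointDistribution
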